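import Pool.Agent.H979.BK.Stm

/-! # Project BK: Markov property of the counts and stationarity -/

open Filter Topology Finset Pool.Agent.H979.BK

namespace Pool.Agent.H176

variable {d n : ℕ}

theorem bk_mem_sel (k : ℕ) (ρ : Equiv.Perm (Ball d n)) (u : Ball d n → Fin d)
    (A : Finset (Ball d n)) :
    A ∈ sel k u ↔ A.map ρ.symm.toEmbedding ∈ sel k (u ∘ ρ) := by
  unfold sel
  rw [mem_filter, mem_filter]
  refine and_congr (by simp) (forall_congr' fun i => ?_)
  have h : ((A.map ρ.symm.toEmbedding).filter fun b => (u ∘ ρ) b = i).card =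
      (A.filter fun b => u b = i).card := by
    rw [Finset.filter_map, Finset.card_map]
    congr 1
    ext b
    simp
  rw [h]

theorem bk_move (σ : Equiv.Perm (Fin d)) (ρ : Equiv.Perm (Ball d n)) (u : Ball d n → Fin d)
    (A : Finset (Ball d n)) :
    move σ (A.map ρ.symm.toEmbedding) (u ∘ ρ) = move σ A u ∘ ρ := by
  funext b
  have h : b ∈ A.map ρ.symm.toEmbedding ↔ ρ b ∈ A := by
    rw [Finset.mem_map_equiv]
    simp
  simp only [move, Function.comp_apply, h]

theorem bk_Ts (k : ℕ) (σ : Equiv.Perm (Fin d)) (f : (Ball d n → Fin d) → ℝ)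
    (ρ : Equiv.Perm (Ball d n)) (u : Ball d n → Fin d) :
    Ts k σ (fun u => f (u ∘ ρ)) u = Ts k σ f (u ∘ ρ) := by
  unfold Ts
  have h1 : ∑ A ∈ sel k u, f (move σ A u ∘ ρ) = ∑ A ∈ sel k (u ∘ ρ), f (move σ A (u ∘ ρ)) := by
    refine Finset.sum_equiv ρ.symm.finsetCongr (fun A => ?_) (fun A _ => ?_)
    · exact bk_mem_sel k ρ u A
    · rw [← bk_move]
      rfl
  have h2 : (sel k u).card = (sel k (u ∘ ρ)).card :=
    Finset.card_equiv ρ.symm.finsetCongr (fun A => bk_mem_sel k ρ u A)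
  rw [h1, h2]

theorem bk_T (μ : Equiv.Perm (Fin d) → ℝ) (k : ℕ) (ρ : Equiv.Perm (Ball d n)) :
    Function.Commute (T (n := n) μ k) (fun f u => f (u ∘ ρ)) := by
  intro f
  funext u
  exact Finset.sum_congr rfl fun σ _ => by rw [bk_Ts]

theorem bk_iter (μ : Equiv.Perm (Fin d) → ℝ) (k m : ℕ) (ρ : Equiv.Perm (Ball d n))
    (f : (Ball d n → Fin d) → ℝ) (u : Ball d n → Fin d) :
    ((T μ k)^[m] f) (u ∘ ρ) = ((T μ k)^[m] (fun u => f (u ∘ ρ))) u :=
  (congrFun (((bk_T μ k ρ).iterate_left m) f) u).symm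

theorem bk_cnt (c u : Ball d n → Fin d) (ρ : Equiv.Perm (Ball d n)) :
    cnt c (u ∘ ρ) = cnt (c ∘ ρ.symm) u := by
  funext l j
  unfold cnt
  refine Finset.card_equiv ρ fun b => ?_
  simp

theorem bk_bal (c : Ball d n → Fin d) (ρ : Equiv.Perm (Ball d n)) (hc : Bal c) :
    Bal (c ∘ ρ) := by
  intro i
  refine Eq.trans ?_ (hc i)
  exact Finset.card_equiv ρ fun b => by simp

theorem bk_fst (i : Fin d) : (univ.filter fun b : Ball d n => b.1 = i).card = n := by
  have h : (univ.filter fun b : Ball d n => b.1 = i) = ({i} : Finset (Fin d)) ×ˢ univ := by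
    ext b
    rw [mem_filter, Finset.mem_product, Finset.mem_singleton]
    simp
  rw [h, Finset.card_product]
  simp

theorem bk_perm (u : Ball d n → Fin d) (hu : Bal u) :
    ∃ ρ : Equiv.Perm (Ball d n), u = Prod.fst ∘ ρ := by
  have h : ∀ i : Fin d, Nonempty ({b // u b = i} ≃ {b : Ball d n // b.1 = i}) := by
    intro i
    refine Fintype.card_eq.1 ?_
    rw [Fintype.card_subtype, Fintype.card_subtype, hu i, bk_fst]
  refine ⟨(Equiv.sigmaFiberEquiv u).symm.trans
    ((Equiv.sigmaCongrRight fun i => Classical.choice (h i)).trans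
      (Equiv.sigmaFiberEquiv (Prod.fst : Ball d n → Fin d))), ?_⟩
  funext b
  exact (Classical.choice (h (u b)) ⟨b, rfl⟩).2.symm

theorem bk_a4 (h1 : S_A1) : S_A4 := by
  intro d n k μ hμ hk m m' f g hg c hc
  obtain ⟨p, -, -, hp0, hp⟩ := h1 d n k μ hμ hk m
  have e1 : E μ k (m + m') (fun u => f (cnt c u)) =
      E μ k m ((T μ k)^[m'] (fun u => f (cnt c u))) := by
    unfold E
    rw [Function.iterate_add_apply]
  rw [e1, hp, hp]
  refine Finset.sum_congr rfl fun u _ => ?_
  by_cases hu : Bal u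
  · congr 1
    obtain ⟨ρ, rfl⟩ := bk_perm u hu
    rw [bk_iter]
    simp only [bk_cnt]
    exact (hg (c ∘ ρ.symm) (bk_bal c ρ.symm hc)).symm
  · rw [hp0 u hu, zero_mul, zero_mul]

theorem bk_a5 (h1 : S_A1) : S_A5 := by
  classical
  intro d n k μ hμ hk m f
  obtain ⟨p, -, hp1, hp0, hp⟩ := h1 d n k μ hμ hk m
  simp only [hp]
  rw [Finset.sum_comm]
  have key : ∀ u : Ball d n → Fin d, ∑ c ∈ univ.filter (fun c : Ball d n → Fin d => Bal c),
      p u * f (cnt c u) =
      p u * ∑ c ∈ univ.filter (fun c : Ball d n → Fin d => Bal c), f (cnt c Prod.fst) := by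
    intro u
    rw [← Finset.mul_sum]
    by_cases hu : Bal u
    · congr 1
      obtain ⟨ρ, rfl⟩ := bk_perm u hu
      simp only [bk_cnt]
      refine Finset.sum_equiv (ρ.arrowCongr (Equiv.refl (Fin d))) (fun c => ?_) (fun c _ => rfl)
      rw [mem_filter, mem_filter]
      refine and_congr (by simp) ⟨fun h => bk_bal c ρ.symm h, fun h => ?_⟩
      have h' := bk_bal _ ρ h
      have e : (ρ.arrowCongr (Equiv.refl (Fin d))) c ∘ ρ = c := by
        funext b
        simp [Equiv.arrowCongr]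
      rwa [e] at h'
    · rw [hp0 u hu, zero_mul, zero_mul]
  have e2 := Finset.sum_congr (s₁ := (univ : Finset (Ball d n → Fin d))) rfl (fun u _ => key u)
  rw [← Finset.sum_mul, hp1, one_mul] at e2
  exact e2

end Pool.Agent.H176
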