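import Pool.Agent.H979.FC.Stm

/-!
# MT and ISO2 for project FC (helper979)
-/

set_option autoImplicit false

open MeasureTheory ProbabilityTheory
open scoped ENNReal NNReal

namespace Pool.Agent.H176

open Pool.Agent.H979.FR Pool.Agent.H979.FC

theorem visits_mono {V : Type} {t t' : ℝ} (h : t ≤ t') (x : V) (ξ : Pool.Agent.H979.FR.Part V) :
    visits t x ξ ⊆ visits t' x ξ := by
  rintro y ⟨n, hn, hy⟩
  exact ⟨n, hn.trans h, hy⟩

theorem visited_mono {V : Type} {t t' : ℝ} (h : t ≤ t') {ω : Conf V} {o y : V}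
    (hy : Visited t ω o y) : Visited t' ω o y := by
  induction hy with
  | start => exact Visited.start
  | step i _ hi hy ih => exact Visited.step i ih hi (visits_mono h _ _ hy)

theorem survives_mono {V : Type} {t t' : ℝ} (h : t ≤ t') (o : V) :
    (Survives t o : Set (Conf V)) ⊆ Survives t' o := by
  intro ω hω
  exact Set.Infinite.mono (fun y hy => visited_mono h hy) hω

theorem fc_mt : S_MT := by
  intro V _ _ G _ lam t t' h o
  exact measure_mono (survives_mono h o)

theorem fc_iso2 (hiso : Pool.Agent.H979.FR.S_ISO) : S_ISO2 := by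
  intro V _ G _ hconn htr o hlin
  by_cases ham : Amenable G
  · refine ⟨1 / 8, by norm_num, fun r A hA => ?_⟩
    have := hiso V G hconn htr ham o hlin r A hA
    linarith
  · unfold Amenable at ham
    push Not at ham
    obtain ⟨ε, hε, hF⟩ := ham
    refine ⟨ε, hε, fun r A hA => ?_⟩
    have hne : A.Nonempty := by
      rw [← Finset.card_pos]
      exact lt_of_lt_of_le (pow_pos two_pos r) hA
    have h1 := hF A hne
    have h2 : ((11 : ℝ) / 10) ^ r ≤ (2 : ℝ) ^ r :=
      pow_le_pow_left₀ (by norm_num) (by norm_num) r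
    have h3 : ((2 : ℝ)) ^ r ≤ (A.card : ℝ) := by exact_mod_cast hA
    have h4 : ε * ((11 : ℝ) / 10) ^ r ≤ ε * (A.card : ℝ) :=
      mul_le_mul_of_nonneg_left (h2.trans h3) hε.le
    linarith

end Pool.Agent.H176
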