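import Pool.Agent.H867.FT.Gen5
import Pool.Agent.H707.FT867PSG

/-!
# COH: existence of good presentations of complete local domains
-/

set_option autoImplicit false

namespace Pool.Agent.H176.FT867COH

open Pool.Agent.H867.FT IsLocalRing
open scoped nonZeroDivisors

/-- the fraction field of a finite extension -/
theorem finite_frac (P S L K : Type) [CommRing P] [IsDomain P] [CommRing S] [IsDomain S]
    [Algebra P S] [Module.Finite P S] [FaithfulSMul P S] [Field L] [Algebra P L]
    [IsFractionRing P L] [Field K] [Algebra S K] [IsFractionRing S K] [Algebra P K]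
    [IsScalarTower P S K] [Algebra L K] [IsScalarTower P L K] : FiniteDimensional L K := by
  have hinj : Function.Injective (algebraMap P S) := FaithfulSMul.algebraMap_injective P S
  have hSK : Function.Injective (algebraMap S K) := IsFractionRing.injective S K
  have hl : IsLocalization (Algebra.algebraMapSubmonoid S P⁰) K := by
    refine (isLocalization_iff _ _).2 ⟨?_, ?_, ?_⟩
    · rintro ⟨_, g, hg, rfl⟩
      refine IsUnit.mk0 _ ?_
      rw [Ne, map_eq_zero_iff _ hSK, map_eq_zero_iff _ hinj]
      exact nonZeroDivisors.ne_zero hg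
    · intro z
      obtain ⟨s, t, ht, rfl⟩ := IsFractionRing.div_surjective (A := S) z
      have ht0 : t ≠ 0 := nonZeroDivisors.ne_zero ht
      have h1 : (Ideal.span {t}).comap (algebraMap P S) ≠ ⊥ :=
        Ideal.comap_ne_bot_of_integral_mem ht0 (Ideal.mem_span_singleton_self t)
          (Algebra.IsIntegral.isIntegral t)
      obtain ⟨g, hg, hg0⟩ := Submodule.exists_mem_ne_zero_of_ne_bot h1
      rw [Ideal.mem_comap, Ideal.mem_span_singleton] at hg
      obtain ⟨t', ht'⟩ := hg
      refine ⟨⟨s * t', ⟨algebraMap P S g, g, mem_nonZeroDivisors_of_ne_zero hg0, rfl⟩⟩, ?_⟩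
      show algebraMap S K s / algebraMap S K t * algebraMap S K (algebraMap P S g) =
        algebraMap S K (s * t')
      rw [ht', map_mul, map_mul]
      have ht1 : algebraMap S K t ≠ 0 := by rwa [Ne, map_eq_zero_iff _ hSK]
      field_simp
    · intro x y h
      exact ⟨1, by rw [hSK h]⟩
  exact Module.Finite.of_isLocalization P S P⁰

section

variable {S : Type} [CommRing S] [IsLocalRing S]

theorem anInd_zero (x : Fin 0 → S) : AnInd x := by
  intro D F hF hx n
  by_cases hn : F.coeff n = 0
  · rw [hn]
    exact zero_mem _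
  · have hn0 : n = 0 := Subsingleton.elim _ _
    subst hn0
    have hD : D = 0 := by
      have h1 := hF hn
      rw [map_zero] at h1
      exact h1.symm
    subst hD
    rw [pow_zero, Ideal.one_eq_top, Ideal.mul_top, MvPolynomial.eq_C_of_isEmpty F,
      MvPolynomial.eval_C] at hx
    exact hx

/-- a small change of a reduction is a reduction -/
theorem isRed_congr [IsNoetherianRing S] {m : ℕ} {x x' : Fin m → S} (hx : IsRed x)
    (h : ∀ i, x' i - x i ∈ maximalIdeal S ^ 2) : IsRed x' := by
  obtain ⟨hx1, r, hr⟩ := hx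
  have h1 : ∀ i, x' i ∈ maximalIdeal S := by
    intro i
    have h2 := Ideal.add_mem _ (Ideal.pow_le_self two_ne_zero (h i)) (hx1 i)
    rwa [sub_add_cancel] at h2
  refine ⟨h1, r, ?_⟩
  apply le_antisymm
  · refine Submodule.le_of_le_smul_of_le_jacobson_bot (I := maximalIdeal S)
      (IsNoetherian.noetherian _) (maximalIdeal_le_jacobson _) ?_
    have h2 : Ideal.span (Set.range x) ≤ Ideal.span (Set.range x') ⊔ maximalIdeal S ^ 2 := by
      rw [Ideal.span_le]
      rintro _ ⟨i, rfl⟩
      have e : x i = x' i - (x' i - x i) := by ring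
      rw [e]
      exact Ideal.sub_mem _ (Ideal.mem_sup_left (Ideal.subset_span ⟨i, rfl⟩))
        (Ideal.mem_sup_right (h i))
    have h3 : maximalIdeal S ^ (r + 1) ≤
        (Ideal.span (Set.range x') ⊔ maximalIdeal S ^ 2) * maximalIdeal S ^ r := by
      rw [hr]
      exact Ideal.mul_mono_left h2
    refine h3.trans ?_
    rw [Ideal.sup_mul]
    refine sup_le_sup le_rfl (le_of_eq ?_)
    rw [smul_eq_mul, ← pow_add, ← pow_succ']
    congr 1
    omega
  · rw [pow_succ']
    refine Ideal.mul_mono_left ?_
    rw [Ideal.span_le]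
    rintro _ ⟨i, rfl⟩
    exact h1 i

theorem pres [IsNoetherianRing S] [IsAdicComplete (maximalIdeal S) S] (h2 : S_EVL) (h4 : S_INJ)
    (h5 : S_FIN) (σ : ResidueField S →+* S) (hσ : ∀ a, residue S (σ a) = a) {m : ℕ}
    (x : Fin m → S) (hx : IsRed x) (ha : AnInd x) :
    ∃ φ : MvPowerSeries (Fin m) (ResidueField S) →+* S,
      (∀ i, φ (MvPowerSeries.X i) = x i) ∧ Function.Injective φ ∧ φ.Finite := by
  obtain ⟨φ, hφC, hφX⟩ := h2 (ResidueField S) S σ m x hx.1
  refine ⟨φ, hφX, ?_, ?_⟩
  · refine h4 (ResidueField S) S m φ (fun i => by rw [hφX]; exact hx.1 i) ?_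
    have e : (fun i : Fin m => φ (MvPowerSeries.X i)) = x := funext hφX
    rw [e]
    exact ha
  · obtain ⟨hx1, r, hr⟩ := hx
    let _ : Algebra (MvPowerSeries (Fin m) (ResidueField S)) S := φ.toAlgebra
    show Module.Finite (MvPowerSeries (Fin m) (ResidueField S)) S
    refine h5 (ResidueField S) S m (r + 1) (fun s => ?_) (fun i => ?_) ?_
    · refine ⟨residue S s, ?_⟩
      have e : algebraMap (MvPowerSeries (Fin m) (ResidueField S)) S
          (MvPowerSeries.C (residue S s)) = σ (residue S s) := hφC _
      rw [e]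
      refine (residue_eq_zero_iff _).1 ?_
      rw [map_sub, hσ, sub_self]
    · have e : algebraMap (MvPowerSeries (Fin m) (ResidueField S)) S (MvPowerSeries.X i) = x i :=
        hφX i
      rw [e]
      exact hx1 i
    · have e : (fun i : Fin m => algebraMap (MvPowerSeries (Fin m) (ResidueField S)) S
          (MvPowerSeries.X i)) = x := funext hφX
      rw [e, hr]
      exact Ideal.mul_le_inf.trans inf_le_left

end

theorem coh (h1 : Pool.Agent.H867.FT.S_COE) (h2 : Pool.Agent.H867.FT.S_EVL)
    (h3 : Pool.Agent.H867.FT.S_RED) (h4 : Pool.Agent.H867.FT.S_INJ)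
    (h5 : Pool.Agent.H867.FT.S_FIN) (h6 : Pool.Agent.H867.FT.S_PBS)
    (h7 : Pool.Agent.H867.FT.S_SEP) (h8 : Pool.Agent.H867.FT.S_DMS) :
    Pool.Agent.H867.FT.S_COH := by
  intro p _ S _ _ _ _ _ _ _
  obtain ⟨σ, hσ⟩ := h1 p S
  have hσi : Function.Injective σ := σ.injective
  have hchar : CharP (ResidueField S) p := RingHom.charP σ hσi p
  classical
  have hex : ∃ m : ℕ, ∃ x : Fin m → S, IsRed x := by
    obtain ⟨m, x, hx⟩ := Submodule.fg_iff_exists_fin_generating_family.1
      (IsNoetherian.noetherian (maximalIdeal S))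
    refine ⟨m, x, fun i => ?_, 0, ?_⟩
    · rw [← hx]
      exact Submodule.subset_span ⟨i, rfl⟩
    · rw [zero_add, pow_one, pow_zero, mul_one]
      exact hx.symm
  obtain ⟨m, hm, hmin'⟩ : ∃ m : ℕ, (∃ x : Fin m → S, IsRed x) ∧
      ∀ n < m, ¬ ∃ x : Fin n → S, IsRed x :=
    ⟨Nat.find hex, Nat.find_spec hex, fun n hn => Nat.find_min hex hn⟩
  have hmin : ∀ x : Fin m → S, IsRed x → AnInd x := by
    rcases m with _ | m
    · intro x _
      exact anInd_zero x
    · intro x hx
      by_contra hna
      exact hmin' m (Nat.lt_succ_self m) (h3 S m x hx hna)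
  obtain ⟨x, hx⟩ := hm
  obtain ⟨φ, hφX, hφi, hφf⟩ := pres h2 h4 h5 σ hσ x hx (hmin x hx)
  have : CharP (FractionRing S) p :=
    charP_of_injective_algebraMap (IsFractionRing.injective S (FractionRing S)) p
  obtain ⟨x', hx', hadj⟩ : ∃ x' : Fin m → S, (∀ i, x' i - x i ∈ maximalIdeal S ^ 2) ∧
      IntermediateField.adjoin (frobenius (FractionRing S) p).fieldRange
        (Set.range fun i => algebraMap S (FractionRing S) (x' i)) = ⊤ := by
    let _ : Algebra (MvPowerSeries (Fin m) (ResidueField S)) S := φ.toAlgebra
    have : Module.Finite (MvPowerSeries (Fin m) (ResidueField S)) S := hφf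
    have : FaithfulSMul (MvPowerSeries (Fin m) (ResidueField S)) S :=
      (faithfulSMul_iff_algebraMap_injective _ _).2 hφi
    exact h6 p (ResidueField S) m S (FractionRing S) x
  have hxr := isRed_congr hx hx'
  obtain ⟨ψ, hψX, hψi, hψf⟩ := pres h2 h4 h5 σ hσ x' hxr (hmin x' hxr)
  refine ⟨ResidueField S, inferInstance, inferInstance, hchar, m, ψ.toAlgebra, ?_⟩
  let _ : Algebra (MvPowerSeries (Fin m) (ResidueField S)) S := ψ.toAlgebra
  have hfin : Module.Finite (MvPowerSeries (Fin m) (ResidueField S)) S := hψf
  have hfai : FaithfulSMul (MvPowerSeries (Fin m) (ResidueField S)) S :=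
    (faithfulSMul_iff_algebraMap_injective _ _).2 hψi
  refine ⟨hfin, hfai, ?_, h8 (ResidueField S) m S, ?_⟩
  · obtain ⟨_, r, hr⟩ := hxr
    refine ⟨r, ?_⟩
    rw [(Pool.Agent.H707.FT867.psg (ResidueField S) m).1, Ideal.map_span, ← Set.range_comp, hr]
    have e : (algebraMap (MvPowerSeries (Fin m) (ResidueField S)) S) ∘
        (fun i : Fin m => (MvPowerSeries.X i : MvPowerSeries (Fin m) (ResidueField S))) = x' :=
      funext hψX
    rw [e]
  · intro L K _ _ _ _ _ _ _ _ _ _
    have : CharP K p := charP_of_injective_algebraMap (IsFractionRing.injective S K) p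
    have : IsDomain (MvPowerSeries (Fin m) (ResidueField S)) := NoZeroDivisors.to_isDomain _
    have : FiniteDimensional L K :=
      finite_frac (MvPowerSeries (Fin m) (ResidueField S)) S L K
    refine h7 p L K ?_
    rw [eq_top_iff]
    intro w _
    let e : FractionRing S ≃ₐ[S] K := FractionRing.algEquiv S K
    have key : ∀ z : FractionRing S, e z ∈
        IntermediateField.adjoin (frobenius K p).fieldRange (Set.range (algebraMap L K)) := by
      intro z
      have hz : z ∈ IntermediateField.adjoin (frobenius (FractionRing S) p).fieldRange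
          (Set.range fun i => algebraMap S (FractionRing S) (x' i)) := by
        rw [hadj]
        exact IntermediateField.mem_top
      induction hz using IntermediateField.adjoin_induction with
      | mem y hy =>
        obtain ⟨i, rfl⟩ := hy
        refine IntermediateField.subset_adjoin _ _ ?_
        refine ⟨algebraMap (MvPowerSeries (Fin m) (ResidueField S)) L (MvPowerSeries.X i), ?_⟩
        rw [← IsScalarTower.algebraMap_apply, IsScalarTower.algebraMap_apply _ S K]
        have e1 : algebraMap (MvPowerSeries (Fin m) (ResidueField S)) S (MvPowerSeries.X i) =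
          x' i := hψX i
        rw [e1]
        exact (e.commutes (x' i)).symm
      | algebraMap y =>
        obtain ⟨y, y', rfl⟩ := y
        have e2 : e (frobenius (FractionRing S) p y') = frobenius K p (e y') := by
          rw [frobenius_def, frobenius_def, map_pow]
        show e (frobenius (FractionRing S) p y') ∈ _
        rw [e2]
        exact IntermediateField.algebraMap_mem _
          (⟨frobenius K p (e y'), ⟨e y', rfl⟩⟩ : (frobenius K p).fieldRange)
      | add a b _ _ ha hb =>
        rw [map_add]
        exact add_mem ha hb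
      | inv a _ ha =>
        rw [map_inv₀]
        exact inv_mem ha
      | mul a b _ _ ha hb =>
        rw [map_mul]
        exact mul_mem ha hb
    have h9 := key (e.symm w)
    rw [AlgEquiv.apply_symm_apply] at h9
    exact h9

end Pool.Agent.H176.FT867COH
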